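import Mathlib

namespace Pool.Agent.H.MP_485030_co

open Finset Matrix

def W (k : ℕ) (p : Fin (k + 1) → ℝ) : Prop := ∃ X L : Fin (k + 1) → Fin k → ℝ,
  (∀ j i, |X j i| ≤ 1 ∧ |L j i| ≤ L j i * X j i) ∧
    ∀ j l, p j + ∑ i, L j i * X l i = if j = l then 1 else 0

theorem split {k p} (h : W k p) (a : Fin (k + 1)) {r : ℝ} (r0 : 0 ≤ r) (r1 : r ≤ 1) :
    W (k + 1) (Fin.cons (1 / 2 - r * (1 - p a))
      fun j => if j = a then 1 / 2 - (1 - r) * (1 - p a) else p j) := by
  obtain ⟨X, L, h1, h2⟩ := h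
  have s : ∀ (c : ℝ) l, ∑ i, c * L a i * X l i = c * ((if a = l then 1 else 0) - p a) := by
    intro c l
    rw [← h2 a l, add_sub_cancel_left, mul_sum]
    simp only [mul_assoc]
  have t : ∀ c : ℝ, 0 ≤ c → ∀ i, |c * L a i| ≤ c * L a i * X a i := fun c hc i => by
    rw [abs_mul, abs_of_nonneg hc, mul_assoc]
    exact mul_le_mul_of_nonneg_left (h1 a i).2 hc
  refine ⟨Fin.cons (Fin.cons 1 (X a)) fun j => Fin.cons (if j = a then -1 else 2 * r - 1) (X j),
    Fin.cons (Fin.cons (1 / 2) fun i => r * L a i) fun j => if j = a then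
      Fin.cons (-1 / 2) fun i => (1 - r) * L a i else Fin.cons 0 (L j), fun j i => ?_, fun j l => ?_⟩
  · refine Fin.cases ?_ (fun j => ?_) j <;> refine Fin.cases ?_ (fun i => ?_) i
    · simp
    · exact ⟨(h1 a i).1, t r r0 i⟩
    · by_cases e : j = a
      · simp [e]; norm_num [abs_of_nonpos]
      · simp [e, abs_le]; constructor <;> linarith
    · by_cases e : j = a
      · subst e
        simpa only [Fin.cons_succ, if_true] using ⟨(h1 j i).1, t _ (sub_nonneg.2 r1) i⟩
      · simpa [e] using h1 j i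
  · refine Fin.cases ?_ (fun j => ?_) j <;> refine Fin.cases ?_ (fun l => ?_) l
    · simp [Fin.sum_univ_succ, s]; ring
    · by_cases e : l = a
      · simp [Fin.sum_univ_succ, s, e, (Fin.succ_ne_zero _).symm]
      · simp [Fin.sum_univ_succ, s, e, Ne.symm e, (Fin.succ_ne_zero _).symm]; ring
    · by_cases e : j = a
      · simp [Fin.sum_univ_succ, s, e]; ring
      · simpa [Fin.sum_univ_succ, e] using h2 j a
    · by_cases e : j = a
      · by_cases f : l = a
        · simp [Fin.sum_univ_succ, s, e, f]; ring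
        · simp [Fin.sum_univ_succ, s, e, f, Ne.symm f]; ring
      · simpa [Fin.sum_univ_succ, e] using h2 j l

theorem refine {N : ℕ} : ∀ (d k : ℕ) (m : Fin (k + 1) → ℕ), (∀ j, 1 ≤ m j ∧ 2 * m j ≤ N) →
    ∑ j, m j = N → N = k + d + 1 → W k (fun j => m j / N) → W (k + d) fun _ => 1 / N
  | 0, k, m, h, s, e, w => by
    have : ∀ j, m j = 1 := fun j => ((sum_eq_sum_iff_of_le (s := univ) (f := fun _ => 1)
      fun j _ => (h j).1).1 (by simp [s, e]) j (mem_univ _)).symm
    simpa [this] using w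
  | d + 1, k, m, h, s, e, w => by
    obtain ⟨a, ha⟩ : ∃ a, 2 ≤ m a := by
      by_contra n
      push Not at n
      have := sum_le_card_nsmul univ m 1 fun j _ => Nat.le_of_lt_succ (n j)
      rw [s] at this
      simp at this
      omega
    have h1 : (2 : ℝ) ≤ m a := by exact_mod_cast ha
    have h2 : (2 * m a : ℝ) ≤ N := by exact_mod_cast (h a).2
    have h3 : (0 : ℝ) < N - m a := by linarith
    have h4 : (0 : ℝ) < N := by linarith
    have := refine (N := N) d (k + 1) (Fin.cons 1 fun j => if j = a then m a - 1 else m j) (fun j => ?_) ?_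
      (by omega) ?_
    · rwa [add_right_comm] at this
    · refine Fin.cases ?_ (fun j => ?_) j
      · have := h a
        simp; omega
      · have := h j
        by_cases f : j = a
        · subst f; simp; omega
        · simpa [f] using this
    · rw [Fin.sum_univ_succ, ← s, ← add_sum_erase _ m (mem_univ a), ← add_sum_erase _ _ (mem_univ a),
        sum_congr rfl (g := m) fun j hj => by rw [Fin.cons_succ, if_neg (ne_of_mem_erase hj)]]
      simp only [Fin.cons_zero, Fin.cons_succ, if_true]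
      show 1 + (m a - 1 + ∑ x ∈ univ.erase a, m x) = _
      omega
    · convert split w a (r := (N / 2 - 1) / (N - m a)) (div_nonneg (by linarith) h3.le)
        ((div_le_one h3).2 (by linarith)) using 2 with j
      refine Fin.cases ?_ (fun j => ?_) j
      · simp; field_simp; ring
      · by_cases f : j = a
        · simp [f, Nat.cast_sub (h a).1]; field_simp; ring
        · simp [f]

theorem base1 : W 1 fun _ => 1 / 2 :=
  ⟨![![1], ![-1]], ![![1 / 2], ![-1 / 2]], by simp [Fin.forall_fin_succ]; norm_num [abs_of_nonpos],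
    by simp [Fin.forall_fin_succ]; norm_num⟩

theorem base6 {t g d : ℝ} (t0 : 0 ≤ t) (t1 : t ≤ 1) (g0 : 0 ≤ g) (g1 : g ≤ 1) (d0 : 0 ≤ d)
    (d1 : d ≤ 1) (h : t * g ≤ 1 / 2) (k : (1 - t) * g ≤ 1 / 2) :
    W 6 ![1 / 4 - t * (1 - g) / 2, 1 / 4 - (1 - t) * (1 - g) / 2 - (1 - d) / 4,
      1 / 4 - (1 - t) * (1 - g) / 2 - (1 - d) / 4, 1 / 4 - t * (1 - g) / 2, (1 - d) / 2,
      (1 - g) / 2, (1 - g) / 2] := by
  have a : ∀ x : ℝ, 0 ≤ x → x ≤ 1 → |2 * x - 1| ≤ 1 := fun x _ _ => abs_le.2 ⟨by linarith, by linarith⟩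
  have a' : ∀ x : ℝ, 0 ≤ x → x ≤ 1 → |1 - 2 * x| ≤ 1 := fun x _ _ => abs_le.2 ⟨by linarith, by linarith⟩
  have b : ∀ x : ℝ, 0 ≤ x → x ≤ 1 → |x - 1| ≤ 1 := fun x _ _ => abs_le.2 ⟨by linarith, by linarith⟩
  have c := a (d * t) (by positivity) (mul_le_one₀ d1 t0 t1)
  refine ⟨![![1, 1, 1, -1, 2 * g - 1, 2 * d - 1], ![1, -1, -1, -1, 2 * g - 1, -1],
      ![-1, 1, -1, 2 * g - 1, -1, -1], ![-1, -1, 1, 2 * g - 1, -1, 2 * d - 1],
      ![0, 0, -1, g - 1, g - 1, 1], ![1, 2 * t - 1, 2 * t - 1, 1, 2 * g - 1, 2 * (d * t) - 1],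
      ![-1, 1 - 2 * t, 2 * t - 1, 2 * g - 1, 1, 2 * (d * t) - 1]],
    ![![1 / 4 - t * g / 2, 1 / 4, 1 / 4, -(t / 2), 0, 0],
      ![1 / 4 - (1 - t) * g / 2, -(1 / 4), -((1 - d) / 4), -((1 - t) / 2), 0, -(1 / 4)],
      ![-(1 / 4 - (1 - t) * g / 2), 1 / 4, -((1 - d) / 4), 0, -((1 - t) / 2), -(1 / 4)],
      ![-(1 / 4 - t * g / 2), -(1 / 4), 1 / 4, 0, -(t / 2), 0],
      ![0, 0, -(d / 2), 0, 0, 1 / 2], ![g / 2, 0, 0, 1 / 2, 0, 0], ![-(g / 2), 0, 0, 0, 1 / 2, 0]],
    ?_, ?_⟩
  · simp only [Fin.forall_fin_succ, cons_val_zero, cons_val_succ, abs_neg, mul_neg, neg_neg,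
      mul_one, abs_one, le_refl, abs_zero, zero_mul, true_and, and_true, IsEmpty.forall_iff,
      a _ t0 t1, a' _ t0 t1, a _ g0 g1, a _ d0 d1, b _ g0 g1, c, zero_le_one]
    refine ⟨⟨?_, ?_, ?_, ?_⟩, ⟨?_, ?_, ?_, ?_, ?_⟩, ⟨?_, ?_, ?_, ?_, ?_⟩, ⟨?_, ?_, ?_, ?_⟩, ⟨?_, ?_⟩,
      ⟨?_, ?_⟩, ?_, ?_⟩ <;> exact (abs_of_nonneg (by linarith)).le
  · intro j l
    fin_cases j <;> fin_cases l <;> simp [Fin.sum_univ_succ] <;> ring

theorem all {n : ℕ} (h1 : 1 ≤ n) (h2 : n ≠ 2) (h4 : n ≠ 4) (h6 : n ≠ 6) :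
    W n fun _ => 1 / (n + 1 : ℕ) := by
  obtain ⟨s, rfl | rfl⟩ := n.even_or_odd'
  · obtain ⟨s, rfl⟩ : ∃ u, s = u + 4 := ⟨s - 4, by omega⟩
    have := refine (N := 2 * (s + 4) + 1) (2 * s + 2) 6 ![1, 1, 1, 1, 1, s + 2, s + 2]
      (by simp [Fin.forall_fin_succ]; omega) (by simp [Fin.sum_univ_succ]; ring) (by ring) ?_
    · rwa [show 6 + (2 * s + 2) = 2 * (s + 4) by ring] at this
    have s0 : (0 : ℝ) ≤ s := s.cast_nonneg
    convert base6 (t := (2 * s + 5) / (4 * s + 8)) (g := 5 / (2 * s + 9)) (d := (2 * s + 7) / (2 * s + 9))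
      (by positivity) ((div_le_one (by positivity)).2 (by linarith)) (by positivity)
      ((div_le_one (by positivity)).2 (by linarith)) (by positivity)
      ((div_le_one (by positivity)).2 (by linarith)) ?_ ?_ using 2 with j
    · fin_cases j <;> simp <;> field_simp <;> ring
    · field_simp
      nlinarith
    · field_simp
      nlinarith
  · have := refine (N := 2 * s + 1 + 1) (2 * s) 1 (fun _ => s + 1) (fun _ => by omega)
      (by simp; ring) (by ring) (by convert base1 using 2; push_cast; field_simp; ring)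
    rwa [add_comm 1] at this

theorem geo {n : ℕ} (h1 : 1 ≤ n) (h : W n fun _ => 1 / (n + 1 : ℕ)) :
    ∃ v : Fin (n + 1) → (Fin n → ℝ), AffineIndependent ℝ v ∧
      convexHull ℝ (Set.range v) ⊆ Set.Icc 0 1 ∧
      Set.Icc 0 1 ⊆ AffineMap.homothety (univ.centroid ℝ v) (n : ℝ) '' convexHull ℝ (Set.range v) := by
  obtain ⟨X, L, h1', h2⟩ := h
  have n0 : (0 : ℝ) < n := by exact_mod_cast h1
  push_cast at h2
  let A : Matrix (Fin (n + 1)) (Fin (n + 1)) ℝ := fun j => Fin.cons (1 / (n + 1)) (L j)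
  let B : Matrix (Fin (n + 1)) (Fin (n + 1)) ℝ := fun j => Fin.cons 1 (X j)
  have e : A * Bᵀ = 1 := by
    ext j l
    simpa [A, B, mul_apply, Fin.sum_univ_succ (n := n), one_apply] using h2 j l
  have f := mul_eq_one_comm.1 e
  have f1 : ∀ i, ∑ j, X j i = 0 := fun i => by
    have := congrFun (congrFun f i.succ) 0
    simp [A, B, mul_apply, ← sum_mul] at this
    exact this.resolve_right (by positivity)
  have f2 : ∀ i, ∑ j, L j i = 0 := fun i => by
    simpa [A, B, mul_apply, one_apply, (Fin.succ_ne_zero _).symm] using congrFun (congrFun f 0) i.succ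
  have f3 : ∀ i k, ∑ j, X j i * L j k = if i = k then 1 else 0 := fun i k => by
    simpa [A, B, mul_apply, one_apply] using congrFun (congrFun f i.succ) k.succ
  have cen : univ.centroid ℝ (fun j i => (X j i + 1) / 2) = fun _ => 1 / 2 := by
    rw [centroid_def, affineCombination_eq_linear_combination _ _ _
      (sum_centroidWeights_eq_one_of_nonempty ℝ _ univ_nonempty)]
    funext i
    simp only [Finset.sum_apply, centroidWeights_apply, Pi.smul_apply, smul_eq_mul, card_univ,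
      Fintype.card_fin, ← mul_sum, ← sum_div, sum_add_distrib, f1]
    simp
    field_simp
  refine ⟨fun j i => (X j i + 1) / 2, ?_, convexHull_min ?_ (convex_Icc _ _), fun x hx => ?_⟩
  · rw [affineIndependent_iff_of_fintype]
    intro w hw hs j
    rw [weightedVSub_eq_linear_combination _ hw] at hs
    have a : ∀ i, ∑ k, w k * X k i = 0 := fun i => by
      have := congrFun hs i
      simp only [Finset.sum_apply, Pi.smul_apply, smul_eq_mul, Pi.zero_apply, ← mul_div_assoc, mul_add,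
        ← sum_div, sum_add_distrib, mul_one, hw] at this
      linarith
    have b : ∑ k, w k * (1 / (n + 1) + ∑ i, L j i * X k i) = 0 := by
      simp only [mul_add, sum_add_distrib, ← sum_mul, hw, mul_sum, zero_mul, zero_add]
      rw [sum_comm]
      refine sum_eq_zero fun i _ => ?_
      simp only [mul_left_comm (w _), ← mul_sum, a, mul_zero]
    simp only [h2] at b
    simpa using b
  · rintro _ ⟨j, rfl⟩
    refine ⟨fun i => ?_, fun i => ?_⟩ <;> simp only [Pi.zero_apply, Pi.one_apply] <;>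
      linarith [abs_le.1 (h1' j i).1]
  rw [cen]
  let w : Fin (n + 1) → ℝ := fun j => 1 / (n + 1) + (∑ k, L j k * (2 * x k - 1)) / n
  have w1 : ∑ j, w j = 1 := by
    simp only [w, sum_add_distrib, ← sum_div]
    rw [sum_comm]
    simp [← sum_mul, f2]
    positivity
  have w0 : ∀ j, 0 ≤ w j := fun j => by
    have a : ∑ k, -(L j k * X j k) ≤ ∑ k, L j k * (2 * x k - 1) := sum_le_sum fun k _ => by
      have b0 : 0 ≤ x k := hx.1 k
      have b1 : x k ≤ 1 := hx.2 k
      have b : |L j k * (2 * x k - 1)| ≤ |L j k| := by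
        rw [abs_mul]
        exact mul_le_of_le_one_right (abs_nonneg _) (abs_le.2 ⟨by linarith, by linarith⟩)
      linarith [(abs_le.1 b).1, (h1' j k).2]
    have b := h2 j j
    rw [if_pos rfl] at b
    rw [sum_neg_distrib] at a
    have c : (1 / (n + 1) : ℝ) = (1 - 1 / (n + 1)) / n := by field_simp; ring
    simp only [w]
    rw [c, ← add_div]
    exact div_nonneg (by linarith) n0.le
  refine ⟨∑ j, w j • fun i => (X j i + 1) / 2, (convex_convexHull ℝ _).sum_mem (fun j _ => w0 j) w1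
    fun j _ => subset_convexHull ℝ _ ⟨j, rfl⟩, funext fun i => ?_⟩
  have c : ∑ j, w j * X j i = (2 * x i - 1) / n := by
    simp only [w, add_mul, sum_add_distrib, ← mul_sum, f1, div_mul_eq_mul_div, ← sum_div, sum_mul]
    rw [sum_comm]
    simp only [mul_right_comm _ _ (X _ i), mul_comm (L _ _) (X _ _), ← sum_mul, f3]
    simp
  simp only [AffineMap.homothety_apply, vsub_eq_sub, vadd_eq_add, Pi.add_apply, Pi.smul_apply,
    Pi.sub_apply, smul_eq_mul, Finset.sum_apply, ← mul_div_assoc, mul_add, ← sum_div,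
    sum_add_distrib, mul_one, w1, c]
  field_simp
  ring

end Pool.Agent.H.MP_485030_co
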